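import Pool.Agent.R901.EC.Tower

/-!
# Uniform proportions of the fields with several generators
-/

set_option autoImplicit false

namespace Pool.Agent.R901.EC

open Pool.Agent.Y18.LP (Fam sp mem_sp)
open Pool.Agent.Y18.BSD (dd dd_ne_zero)

section gen

variable {G : Type} [CommGroup G] {r : ℕ}

open Classical in
/-- corrections of tuples: from a subgroup with finitely many cosets to the group -/
lemma corr_tuple {H H1 : Subgroup G} (h1 : H1 ≤ H) (R : Finset G) (hR : ∀ x ∈ R, x ∈ H)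
    (hR2 : ∀ c ∈ H, ∃ x ∈ R, c * x ∈ H1) (K1 : Finset (Fin r → G))
    (hK1 : ∀ k ∈ K1, ∀ j, k j ∈ H1) (Q : (Fin r → G) → Prop)
    (hQ : ∀ c : Fin r → G, (∀ j, c j ∈ H1) → ∃ k ∈ K1, Q (fun j => c j * k j)) :
    ∃ K : Finset (Fin r → G), K.card ≤ R.card ^ r * K1.card ∧ (∀ k ∈ K, ∀ j, k j ∈ H) ∧
      ∀ c : Fin r → G, (∀ j, c j ∈ H) → ∃ k ∈ K, (∀ j, c j * k j ∈ H1) ∧
        Q (fun j => c j * k j) := by
  refine ⟨((Fintype.piFinset fun _ : Fin r => R) ×ˢ K1).image (fun x => fun j => x.1 j * x.2 j),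
    ?_, ?_, ?_⟩
  · refine Finset.card_image_le.trans ?_
    rw [Finset.card_product, Fintype.card_piFinset_const]
  · intro k hk j
    obtain ⟨x, hx, rfl⟩ := Finset.mem_image.1 hk
    obtain ⟨hx1, hx2⟩ := Finset.mem_product.1 hx
    exact H.mul_mem (hR _ (Fintype.mem_piFinset.1 hx1 j)) (h1 (hK1 _ hx2 j))
  · intro c hc
    choose ρ hρ1 hρ2 using fun j => hR2 (c j) (hc j)
    obtain ⟨k, hk, h2⟩ := hQ (fun j => c j * ρ j) hρ2
    refine ⟨fun j => ρ j * k j, Finset.mem_image.2 ⟨(ρ, k), Finset.mem_product.2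
      ⟨Fintype.mem_piFinset.2 hρ1, hk⟩, rfl⟩, fun j => ?_, ?_⟩
    · rw [← mul_assoc]
      exact H1.mul_mem (hρ2 j) (hK1 k hk j)
    · have e : (fun j => c j * (ρ j * k j)) = fun j => c j * ρ j * k j := by
        funext j
        rw [mul_assoc]
      rw [e]
      exact h2

lemma prod_pow_mem (H : Subgroup G) (y : Fin r → G) (hy : ∀ j, y j ∈ H) (J : Fin r → ℕ) :
    ∏ j, y j ^ J j ∈ H :=
  H.prod_mem fun j _ => H.pow_mem (hy j) _

/-- counting with corrections -/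
lemma count_tuple {A B : Set (Fin r → G)} (K : Finset (Fin r → G)) {P : (Fin r → G) → Prop}
    (h : ∀ c ∈ A, ∃ k ∈ K, P (fun j => c j * k j)) (hB : B.Finite)
    (hAB : ∀ c ∈ A, ∀ k ∈ K, P (fun j => c j * k j) → (fun j => c j * k j) ∈ B) :
    A.ncard ≤ K.card * B.ncard := by
  classical
  choose! κ h1 h2 using h
  have h3 : A.ncard ≤ ((K : Set (Fin r → G)) ×ˢ B).ncard := by
    refine Set.ncard_le_ncard_of_injOn (fun c => (κ c, fun j => c j * κ c j)) ?_ ?_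
      ((Finset.finite_toSet K).prod hB)
    · intro c hc
      exact ⟨h1 c hc, hAB c hc _ (h1 c hc) (h2 c hc)⟩
    · intro c hc c' hc' he
      simp only [Prod.mk.injEq] at he
      obtain ⟨e1, e2⟩ := he
      funext j
      have e3 : c j * κ c j = c' j * κ c' j := congrFun e2 j
      rw [e1] at e3
      exact mul_right_cancel e3
  rw [Set.ncard_prod, Set.ncard_coe_finset] at h3
  exact h3

end gen

/-- the families supported in a finite set of primes -/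
lemma finite_fam (S : Finset ℕ) (hS : ∀ q ∈ S, q.Prime) :
    {c : Fam | ∀ q, c q ≠ 1 → q ∈ S}.Finite := by
  classical
  have h1 : ∀ q : S, Finite ((ZMod (q : ℕ))ˣ →* ℂˣ) := by
    intro q
    haveI : NeZero (q : ℕ) := ⟨(hS q q.2).ne_zero⟩
    exact Finite.of_equiv (MulChar (ZMod (q : ℕ)) ℂ) MulChar.equivToUnitHom
  have h2 : Finite ((q : S) → ((ZMod (q : ℕ))ˣ →* ℂˣ)) := Pi.finite
  have h3 : Function.Injective (fun c : {c : Fam | ∀ q, c q ≠ 1 → q ∈ S} =>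
      fun q : S => (c : Fam) (q : ℕ)) := by
    intro c c' h
    apply Subtype.ext
    funext q
    by_cases hq : q ∈ S
    · exact congrFun h ⟨q, hq⟩
    · have e1 : (c : Fam) q = 1 := by
        by_contra hne
        exact hq (c.2 q hne)
      have e2 : (c' : Fam) q = 1 := by
        by_contra hne
        exact hq (c'.2 q hne)
      rw [e1, e2]
  exact Set.finite_coe_iff.1 (Finite.of_injective _ h3)

lemma dd_pos {T : Finset ℕ} (hT : ∀ q ∈ T, q.Prime) : 0 < dd T :=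
  Nat.pos_of_ne_zero (dd_ne_zero hT)

/-- the conductor of a product -/
lemma dd_mul_le {c c' : Fam} (hc : {q | c q ≠ 1}.Finite) (hc' : {q | c' q ≠ 1}.Finite)
    (hp : ∀ q, c q ≠ 1 → q.Prime) (hp' : ∀ q, c' q ≠ 1 → q.Prime) :
    dd (sp (c * c')) ≤ dd (sp c) * dd (sp c') := by
  classical
  have hcc : {q | (c * c') q ≠ 1}.Finite := by
    refine (hc.union hc').subset fun q hq => ?_
    by_contra h
    simp only [Set.mem_union, Set.mem_setOf_eq, not_or, not_not] at h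
    apply hq
    show c q * c' q = 1
    rw [h.1, h.2]
    exact one_mul (1 : (ZMod q)ˣ →* ℂˣ)
  have hsub : sp (c * c') ⊆ sp c ∪ sp c' := by
    intro q hq
    rw [mem_sp hcc] at hq
    rw [Finset.mem_union, mem_sp hc, mem_sp hc']
    by_contra h
    rw [not_or, not_not, not_not] at h
    apply hq
    show c q * c' q = 1
    rw [h.1, h.2]
    exact one_mul (1 : (ZMod q)ˣ →* ℂˣ)
  have h1 : ∀ q ∈ sp c, q.Prime := fun q hq => hp q ((mem_sp hc q).1 hq)
  have h2 : ∀ q ∈ sp c', q.Prime := fun q hq => hp' q ((mem_sp hc' q).1 hq)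
  have h3 : ∀ q ∈ sp c ∪ sp c', q.Prime := by
    intro q hq
    rcases Finset.mem_union.1 hq with h | h
    · exact h1 q h
    · exact h2 q h
  have h4 : dd (sp (c * c')) ≤ dd (sp c ∪ sp c') :=
    Nat.le_of_dvd (dd_pos h3) (Finset.prod_dvd_prod_of_subset _ _ _ hsub)
  have h5 : dd (sp c ∪ sp c') * dd (sp c ∩ sp c') = dd (sp c) * dd (sp c') :=
    Finset.prod_union_inter
  have h6 : 0 < dd (sp c ∩ sp c') := dd_pos fun q hq => h1 q (Finset.mem_inter.1 hq).1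
  calc dd (sp (c * c')) ≤ dd (sp c ∪ sp c') := h4
    _ ≤ dd (sp c ∪ sp c') * dd (sp c ∩ sp c') := Nat.le_mul_of_pos_right _ h6
    _ = _ := h5

/-- finitely many tuples of bounded conductor -/
lemma finite_cond {r : ℕ} {H : Subgroup Fam} (hfin : ∀ c ∈ H, {q | c q ≠ 1}.Finite)
    (hp : ∀ c ∈ H, ∀ q, c q ≠ 1 → q.Prime) (X : ℕ) :
    {c : Fin r → Fam | (∀ j, c j ∈ H) ∧ ∏ j, dd (sp (c j)) ≤ X}.Finite := by
  classical
  have h1 := finite_fam ((Finset.range (X + 1)).filter Nat.Prime)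
    (fun q hq => (Finset.mem_filter.1 hq).2)
  refine (Set.Finite.pi' (fun _ : Fin r => h1)).subset ?_
  rintro c ⟨hc, hX⟩ j q hq
  have hqp := hp _ (hc j) q hq
  have hpos : ∀ j, 0 < dd (sp (c j)) := fun j =>
    dd_pos fun q hq => hp _ (hc j) q ((mem_sp (hfin _ (hc j)) q).1 hq)
  rw [Finset.mem_filter, Finset.mem_range]
  refine ⟨?_, hqp⟩
  have h2 : q ∣ dd (sp (c j)) := Finset.dvd_prod_of_mem _ ((mem_sp (hfin _ (hc j)) q).2 hq)
  have h3 : q ≤ dd (sp (c j)) := Nat.le_of_dvd (hpos j) h2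
  have h4 : dd (sp (c j)) ≤ ∏ j, dd (sp (c j)) :=
    Nat.le_of_dvd (Finset.prod_pos fun j _ => hpos j)
      (Finset.dvd_prod_of_mem (fun j => dd (sp (c j))) (Finset.mem_univ j))
  omega

/-- **The counting statements.** -/
theorem many_tuples {r : ℕ} {H : Subgroup Fam} (hfin : ∀ c ∈ H, {q | c q ≠ 1}.Finite)
    (hp : ∀ c ∈ H, ∀ q, c q ≠ 1 → q.Prime) {V : ℕ} (K : Finset (Fin r → Fam))
    (hK : K.card ≤ 2 ^ V) (hKH : ∀ k ∈ K, ∀ j, k j ∈ H) {P : (Fin r → Fam) → Prop}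
    (h : ∀ c : Fin r → Fam, (∀ j, c j ∈ H) → ∃ k ∈ K, P (fun j => c j * k j)) :
    ((H : Set Fam).Finite → {c : Fin r → Fam | ∀ j, c j ∈ H}.ncard ≤
      2 ^ V * {c : Fin r → Fam | (∀ j, c j ∈ H) ∧ P c}.ncard) ∧
    ∃ C : ℕ, ∀ X : ℕ, {c : Fin r → Fam | (∀ j, c j ∈ H) ∧ ∏ j, dd (sp (c j)) ≤ X}.ncard ≤
      2 ^ V * {c : Fin r → Fam | ((∀ j, c j ∈ H) ∧ P c) ∧ ∏ j, dd (sp (c j)) ≤ C * X}.ncard := by
  classical
  refine ⟨fun hH => ?_, ∏ k ∈ K, ∏ j, dd (sp (k j)), fun X => ?_⟩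
  · refine (count_tuple (G := Fam) (B := {c : Fin r → Fam | (∀ j, c j ∈ H) ∧ P c}) K
      (fun c hc => h c hc) ((Set.Finite.pi' (fun _ : Fin r => hH)).subset fun c hc => hc.1) ?_).trans
      (Nat.mul_le_mul_right _ hK)
    intro c hc k hk h1
    exact ⟨fun j => H.mul_mem (hc j) (hKH k hk j), h1⟩
  · refine (count_tuple (G := Fam) (B := {c : Fin r → Fam | ((∀ j, c j ∈ H) ∧ P c) ∧
      ∏ j, dd (sp (c j)) ≤ (∏ k ∈ K, ∏ j, dd (sp (k j))) * X}) K
      (fun c hc => h c hc.1) ((finite_cond hfin hp _).subset fun c hc => ⟨hc.1.1, hc.2⟩) ?_).trans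
      (Nat.mul_le_mul_right _ hK)
    rintro c ⟨hc, hX⟩ k hk h1
    refine ⟨⟨fun j => H.mul_mem (hc j) (hKH k hk j), h1⟩, ?_⟩
    have hpos : ∀ c ∈ H, 0 < dd (sp c) := fun c hc =>
      dd_pos fun q hq => hp _ hc q ((mem_sp (hfin _ hc) q).1 hq)
    have h2 : ∏ j, dd (sp (c j * k j)) ≤ (∏ j, dd (sp (c j))) * ∏ j, dd (sp (k j)) := by
      rw [← Finset.prod_mul_distrib]
      exact Finset.prod_le_prod' fun j _ => dd_mul_le (hfin _ (hc j)) (hfin _ (hKH k hk j))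
        (hp _ (hc j)) (hp _ (hKH k hk j))
    have h3 : ∏ j, dd (sp (k j)) ≤ ∏ k ∈ K, ∏ j, dd (sp (k j)) :=
      Nat.le_of_dvd (Finset.prod_pos fun k hk => Finset.prod_pos fun j _ => hpos _ (hKH k hk j))
        (Finset.dvd_prod_of_mem (fun k : Fin r → Fam => ∏ j, dd (sp (k j))) hk)
    calc ∏ j, dd (sp (c j * k j)) ≤ (∏ j, dd (sp (c j))) * ∏ j, dd (sp (k j)) := h2
      _ ≤ X * ∏ k ∈ K, ∏ j, dd (sp (k j)) := Nat.mul_le_mul hX h3
      _ = _ := mul_comm _ _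

end Pool.Agent.R901.EC
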