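import Pool.Agent.R901.EC.Tw
import Pool.Agent.Y18.LP.Main

/-!
# Elliptic curves with trivial 2-Selmer group over the fields of groups of characters
-/

set_option autoImplicit false

open NumberField IsDedekindDomain
open Polynomial (cyclotomic nthRootsFinset mem_nthRootsFinset card_nthRoots)

namespace Pool.Agent.R901.EC

open Pool.Agent.Y702.G (base pts sh SelTriv)
open Pool.Agent.Y18.LP (Fam sp cvl UU XX XX_nat XX_pow XX_mul eta_act sp_sub mem_sp dvd_dd)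
open Pool.Agent.Y18.BSD (dd dd_ne_zero dd_dvd)
open IsCyclotomicExtension.Rat (galEquivZMod)

section cyc

variable (n : ℕ) [NeZero n] (L : Type) [Field L] [NumberField L] [IsCyclotomicExtension {n} ℚ L]

/-- automorphisms at which the characters are trivial -/
theorem fixes (H0 : Subgroup Fam) (S0 : Finset ℕ) (hS0 : ∀ q ∈ S0, q.Prime) (hn : dd S0 ∣ n)
    (F : IntermediateField ℚ L)
    (hF : F ≤ IntermediateField.adjoin ℚ {x : L | ∃ c ∈ H0, (∀ q, q ∉ S0 → c q = 1) ∧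
      ∃ z : L, z ^ dd (sp c) = 1 ∧ x = Pool.Agent.Y18.LP.eta c z})
    (σ : L ≃ₐ[ℚ] L) (hσ : ∀ c ∈ H0, (∀ q, q ∉ S0 → c q = 1) →
      (XX c (sp c) n (galEquivZMod n L σ) : ℂ) = 1) : ∀ x ∈ F, σ x = x := by
  intro x hx
  have h2 : F ≤ IntermediateField.fixedField (Subgroup.zpowers σ) := by
    refine hF.trans (IntermediateField.adjoin_le_iff.2 ?_)
    rintro y ⟨c, hc, hcS, z, hz, rfl⟩
    obtain ⟨hfin, hsub⟩ := sp_sub S0 hcS
    have hd : dd (sp c) ∣ n := (dd_dvd hsub).trans hn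
    have h1 : σ (Pool.Agent.Y18.LP.eta c z) = Pool.Agent.Y18.LP.eta c z :=
      eta_act n L (dd_ne_zero fun q hq => hS0 q (hsub hq)) hd hz σ (hσ c hc hcS)
    show Pool.Agent.Y18.LP.eta c z ∈ IntermediateField.fixedField (Subgroup.zpowers σ)
    rw [IntermediateField.mem_fixedField_iff]
    intro τ hτ
    obtain ⟨k, rfl⟩ := Subgroup.mem_zpowers_iff.1 hτ
    have h5 : σ • (Pool.Agent.Y18.LP.eta c z) = Pool.Agent.Y18.LP.eta c z := h1
    have h4 : σ ^ k ∈ MulAction.stabilizer (L ≃ₐ[ℚ] L) (Pool.Agent.Y18.LP.eta c z) :=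
      Subgroup.zpow_mem _ (MulAction.mem_stabilizer_iff.2 h5) k
    exact MulAction.mem_stabilizer_iff.1 h4
  have h3 := h2 hx
  rw [IntermediateField.mem_fixedField_iff] at h3
  exact h3 σ (Subgroup.mem_zpowers σ)

include n in
/-- the degree of an abelian field with Galois group of exponent `2 ^ k` -/
theorem deg_pow (F : IntermediateField ℚ L) (k : ℕ)
    (h : ∀ σ : L ≃ₐ[ℚ] L, ∀ x ∈ F, (σ ^ (2 ^ k)) x = x) : ∃ j, Module.finrank ℚ F = 2 ^ j := by
  haveI : IsGalois ℚ F := Pool.Agent.Y702.L.gal_F n L F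
  haveI : IsGalois ℚ L := IsCyclotomicExtension.isGalois {n} ℚ L
  haveI : Fact (Nat.Prime 2) := ⟨Nat.prime_two⟩
  have hp : IsPGroup 2 (F ≃ₐ[ℚ] F) := by
    intro g
    refine ⟨k, ?_⟩
    obtain ⟨σ, rfl⟩ := AlgEquiv.restrictNormalHom_surjective (F := ℚ) (K₁ := F) L g
    rw [← map_pow]
    apply AlgEquiv.ext
    intro x
    have h1 := AlgEquiv.restrictNormal_commutes (σ ^ (2 ^ k)) F x
    apply (algebraMap F L).injective
    exact h1.trans (h σ x x.2)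
  obtain ⟨j, hj⟩ := IsPGroup.iff_card.1 hp
  exact ⟨j, by rw [← IsGalois.card_aut_eq_finrank, hj]⟩

end cyc

open scoped Classical

/-- **Finiteness of the points over the fields of a group of characters.** -/
theorem core_alg (W : WeierstrassCurve ℤ) (hΔ : W.Δ < 0)
    (hsha : ∀ s : Pool.Agent.TH841.NF.D.Sha (base W ℚ), 2 • s = 0 → s = 0)
    (hfinQ : Finite (base W ℚ).toAffine.Point) (hcard : Odd (Nat.card (base W ℚ).toAffine.Point))
    (H0 : Subgroup Fam) (k : ℕ) (hpow : ∀ c ∈ H0, c ^ (2 ^ k) = 1)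
    (hfin : ∀ c ∈ H0, {q | c q ≠ 1}.Finite)
    (hadm : ∀ c ∈ H0, ∀ q, c q ≠ 1 → q.Prime ∧ ¬ (q : ℤ) ∣ 2 * W.Δ ∧
      Odd ((q : ℤ) - pts W (ZMod q)))
    (hspl : ∀ c ∈ H0, ∀ p : ℕ, p.Prime → (p : ℤ) ∣ 2 * W.Δ → cvl c p = 1)
    (F : IntermediateField ℚ ℂ) [NumberField F]
    (hF : F ≤ IntermediateField.adjoin ℚ {x : ℂ | ∃ c ∈ H0,
      x = Pool.Agent.Y18.LP.eta c (Complex.exp (2 * Real.pi * Complex.I / (dd (sp c) : ℕ)))}) :
    Finite (twk W F 1).toAffine.Point := by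
  obtain ⟨Z0, hZ1, hZ2⟩ := Pool.Agent.Y18.NF.finite_gen F _ hF
  have h1 : ∀ z : ℂ, ∃ c : Fam, c ∈ H0 ∧ (z ∈ Z0 →
      z = Pool.Agent.Y18.LP.eta c (Complex.exp (2 * Real.pi * Complex.I / (dd (sp c) : ℕ)))) := by
    intro z
    by_cases hz : z ∈ Z0
    · obtain ⟨c, hc, h⟩ := hZ1 hz
      exact ⟨c, hc, fun _ => h⟩
    · exact ⟨1, H0.one_mem, fun h => absurd h hz⟩
  choose c hcH hc using h1
  set S0 : Finset ℕ := Z0.biUnion fun z => sp (c z) with hS0
  have hS0X : ∀ q ∈ S0, q.Prime ∧ ¬ (q : ℤ) ∣ 2 * W.Δ ∧ Odd ((q : ℤ) - pts W (ZMod q)) := by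
    intro q hq
    rw [hS0, Finset.mem_biUnion] at hq
    obtain ⟨z, hz, hqz⟩ := hq
    exact hadm _ (hcH z) q ((mem_sp (hfin _ (hcH z)) q).1 hqz)
  set n : ℕ := dd S0 with hn
  have hn0 : NeZero n := ⟨dd_ne_zero fun q hq => (hS0X q hq).1⟩
  let L := CyclotomicField n ℚ
  have hcyc : IsCyclotomicExtension {n} ℚ L := CyclotomicField.isCyclotomicExtension n ℚ
  let φ : L →ₐ[ℚ] ℂ := IsAlgClosed.lift
  have hζ := IsCyclotomicExtension.zeta_spec n ℚ L
  have hζφ : IsPrimitiveRoot (φ (IsCyclotomicExtension.zeta n ℚ L)) n :=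
    hζ.map_of_injective φ.toRingHom.injective
  have hroot : ∀ y : ℂ, y ^ n = 1 → ∃ z : L, φ z = y ∧ z ^ n = 1 := by
    intro y hy
    obtain ⟨i, -, hi⟩ := hζφ.eq_pow_of_pow_eq_one hy
    refine ⟨IsCyclotomicExtension.zeta n ℚ L ^ i, ?_, ?_⟩
    · rw [map_pow, hi]
    · rw [← pow_mul, mul_comm, pow_mul, hζ.pow_eq_one, one_pow]
  set ZL : Set L := {x : L | ∃ c ∈ H0, (∀ q, q ∉ S0 → c q = 1) ∧
      ∃ z : L, z ^ dd (sp c) = 1 ∧ x = Pool.Agent.Y18.LP.eta c z} with hZL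
  have hadj : F ≤ (IntermediateField.adjoin ℚ ZL).map φ := by
    refine hZ2.trans ?_
    rw [IntermediateField.adjoin_map]
    refine IntermediateField.adjoin.mono ℚ _ _ ?_
    intro z hz
    have hz' : z ∈ Z0 := hz
    have hsub : sp (c z) ⊆ S0 := Finset.subset_biUnion_of_mem (fun z => sp (c z)) hz'
    have hM0 : dd (sp (c z)) ≠ 0 := dd_ne_zero fun q hq => (hS0X q (hsub hq)).1
    set M := dd (sp (c z)) with hM
    set y : ℂ := Complex.exp (2 * Real.pi * Complex.I / (M : ℕ)) with hy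
    have hyM : y ^ M = 1 := (Complex.isPrimitiveRoot_exp M hM0).pow_eq_one
    obtain ⟨k, hk⟩ : M ∣ n := dd_dvd hsub
    have hyn : y ^ n = 1 := by rw [hk, pow_mul, hyM, one_pow]
    obtain ⟨x, hx1, hx2⟩ := hroot y hyn
    refine ⟨Pool.Agent.Y18.LP.eta (c z) x, ⟨c z, hcH z, fun q hq => ?_, x, ?_, rfl⟩, ?_⟩
    · by_contra h
      exact hq (hsub ((mem_sp (hfin _ (hcH z)) q).2 h))
    · apply φ.toRingHom.injective
      show φ _ = φ _
      rw [map_pow, map_one, hx1]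
      exact hyM
    · show φ (Pool.Agent.Y18.LP.eta (c z) x) = z
      refine Eq.trans ?_ (hc z hz').symm
      unfold Pool.Agent.Y18.LP.eta
      rw [map_sum]
      refine Finset.sum_congr rfl fun u _ => ?_
      rw [map_pow, hx1]
  set F' : IntermediateField ℚ L := F.comap φ with hF'
  have hF'le : F' ≤ IntermediateField.adjoin ℚ ZL := by
    intro x hx
    have h2 : φ x ∈ F := hx
    obtain ⟨y, hy, hyx⟩ := hadj h2
    have h3 : y = x := φ.toRingHom.injective hyx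
    rw [← h3]
    exact hy
  have hSp : ∀ q ∈ S0, q.Prime := fun q hq => (hS0X q hq).1
  obtain ⟨j, hj⟩ := deg_pow n L F' k (fun σ => fixes n L H0 S0 hSp dvd_rfl F' hF'le _
    (fun c hc _ => by
      have h2 : galEquivZMod n L (σ ^ (2 ^ k)) = (galEquivZMod n L σ) ^ (2 ^ k) := map_pow _ _ _
      rw [h2, map_pow, XX_pow (hpow c hc)]
      rfl))
  have hm : ∀ l : ℕ, l.Prime → l ∣ n → ¬ (l : ℤ) ∣ 2 * W.Δ ∧ Odd ((l : ℤ) - pts W (ZMod l)) := by
    intro l hl hlm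
    have h1 : ∃ q ∈ S0, l ∣ q := (Prime.dvd_finset_prod_iff (Nat.prime_iff.1 hl) _).1 hlm
    obtain ⟨q, hq, h2⟩ := h1
    have h3 : l = q := (Nat.prime_dvd_prime_iff_eq hl (hSp q hq)).1 h2
    subst h3
    exact (hS0X l hq).2
  have hfix : ∀ (p : ℕ), p.Prime → (p : ℤ) ∣ 2 * W.Δ → ∀ (hpm : p.Coprime n) (σ : L ≃ₐ[ℚ] L),
      IsCyclotomicExtension.autEquivPow L (cyclotomic.irreducible_rat (NeZero.pos n)) σ =
        ZMod.unitOfCoprime p hpm → ∀ x ∈ F', σ x = x := by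
    intro p hp hpd hpm σ hσ
    refine fixes n L H0 S0 hSp dvd_rfl F' hF'le σ fun c hc hcS => ?_
    have h2 : galEquivZMod n L σ = ZMod.unitOfCoprime p hpm := hσ
    rw [h2, XX_nat c (fun q hq => (dvd_dd hq).trans (dd_dvd (sp_sub S0 hcS).2)) hpm]
    exact hspl c hc p hp hpd
  obtain ⟨-, hfinal, -⟩ := sel_fin W hΔ hsha hfinQ hcard hm L F' j hj hfix
  let ψ : F' →+* F :=
    { toFun := fun x => ⟨φ x.1, x.2⟩
      map_one' := Subtype.ext (map_one φ)
      map_mul' := fun x y => Subtype.ext (map_mul φ x.1 y.1)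
      map_zero' := Subtype.ext (map_zero φ)
      map_add' := fun x y => Subtype.ext (map_add φ x.1 y.1) }
  have hψ : Function.Bijective ψ := by
    refine ⟨ψ.injective, fun y => ?_⟩
    obtain ⟨x, -, hx⟩ := hadj y.2
    exact ⟨⟨x, by
      show φ x ∈ F
      have : φ x = y := hx
      rw [this]
      exact y.2⟩, Subtype.ext hx⟩
  let e : F' ≃+* F := RingEquiv.ofBijective ψ hψ
  exact twk_finite (K := F') (e.symm : F →+* F') (D := 1) (δ := 1) one_ne_zero (by simp) hΔ.ne hfinal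

section reps

variable {G : Type} [CommGroup G]

/-- representatives modulo the kernel of a character -/
lemma reps1 (H : Subgroup G) (χ : G → ℂ) {e : ℕ} (he : 0 < e)
    (hmul : ∀ c ∈ H, ∀ c' ∈ H, χ (c * c') = χ c * χ c') (hpow : ∀ c ∈ H, χ c ^ e = 1) :
    χ 1 = 1 ∧ ∃ R : Finset G, R.card ≤ e ∧ (∀ r ∈ R, r ∈ H) ∧ ∀ c ∈ H, ∃ r ∈ R, χ (c * r) = 1 := by
  have hone : χ 1 = 1 := by
    have h2 := hmul 1 H.one_mem 1 H.one_mem
    rw [mul_one] at h2
    have h3 : χ 1 ≠ 0 := by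
      intro h
      have h4 := hpow 1 H.one_mem
      rw [h, zero_pow he.ne'] at h4
      exact zero_ne_one h4
    exact (mul_right_cancel₀ h3 (by rw [one_mul]; exact h2.symm : χ 1 * χ 1 = 1 * χ 1))
  refine ⟨hone, ?_⟩
  have h1 : ∀ z : ℂ, ∃ r : G, r ∈ H ∧ ((∃ c ∈ H, χ c = z) → z * χ r = 1) := by
    intro z
    by_cases hz : ∃ c ∈ H, χ c = z
    · obtain ⟨c, hc, rfl⟩ := hz
      refine ⟨c⁻¹, H.inv_mem hc, fun _ => ?_⟩
      rw [← hmul c hc _ (H.inv_mem hc), mul_inv_cancel]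
      exact hone
    · exact ⟨1, H.one_mem, fun h => absurd h hz⟩
  choose r hr1 hr2 using h1
  refine ⟨(nthRootsFinset e (1 : ℂ)).image r, ?_, ?_, ?_⟩
  · refine Finset.card_image_le.trans ?_
    unfold nthRootsFinset
    refine (Multiset.toFinset_card_le _).trans ?_
    exact card_nthRoots e 1
  · intro x hx
    obtain ⟨z, -, rfl⟩ := Finset.mem_image.1 hx
    exact hr1 z
  · intro c hc
    refine ⟨r (χ c), Finset.mem_image.2 ⟨χ c, ?_, rfl⟩, ?_⟩
    · rw [mem_nthRootsFinset he]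
      exact hpow c hc
    · rw [hmul c hc _ (hr1 _)]
      exact hr2 _ ⟨c, hc, rfl⟩

/-- representatives modulo the common kernel of several characters -/
lemma reps (Z : Finset ℕ) (χ : ℕ → G → ℂ) {e : ℕ} (he : 0 < e) :
    ∀ H : Subgroup G, (∀ p ∈ Z, ∀ c ∈ H, ∀ c' ∈ H, χ p (c * c') = χ p c * χ p c') →
    (∀ p ∈ Z, ∀ c ∈ H, χ p c ^ e = 1) →
    ∃ H' : Subgroup G, (∀ c, c ∈ H' ↔ c ∈ H ∧ ∀ p ∈ Z, χ p c = 1) ∧
    ∃ R : Finset G, R.card ≤ e ^ Z.card ∧ (∀ r ∈ R, r ∈ H) ∧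
      ∀ c ∈ H, ∃ r ∈ R, c * r ∈ H' := by
  induction Z using Finset.induction_on with
  | empty =>
    intro H _ _
    exact ⟨H, fun c => by simp, {1}, by simp, by simp [H.one_mem], fun c hc => ⟨1, by simp,
      by rw [mul_one]; exact hc⟩⟩
  | insert p Z hp ih =>
    intro H hmul hpow
    have hpI : p ∈ insert p Z := Finset.mem_insert_self p Z
    obtain ⟨hone, R1, h1, h2, h3⟩ := reps1 H (χ p) he (hmul p hpI) (hpow p hpI)
    let H' : Subgroup G :=
      { carrier := {c | c ∈ H ∧ χ p c = 1}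
        one_mem' := ⟨H.one_mem, hone⟩
        mul_mem' := by
          rintro c c' ⟨h1, h2⟩ ⟨h3, h4⟩
          exact ⟨H.mul_mem h1 h3, by rw [hmul p hpI c h1 c' h3, h2, h4, one_mul]⟩
        inv_mem' := by
          rintro c ⟨h1, h2⟩
          refine ⟨H.inv_mem h1, ?_⟩
          have h3 := hmul p hpI c h1 c⁻¹ (H.inv_mem h1)
          rw [mul_inv_cancel, hone, h2, one_mul] at h3
          exact h3.symm }
    obtain ⟨H2, hH2, R2, h4, h5, h6⟩ := ih H'
      (fun q hq c hc c' hc' => hmul q (Finset.mem_insert_of_mem hq) c hc.1 c' hc'.1)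
      (fun q hq c hc => hpow q (Finset.mem_insert_of_mem hq) c hc.1)
    refine ⟨H2, fun c => ?_, (R1 ×ˢ R2).image (fun x => x.1 * x.2), ?_, ?_, ?_⟩
    · rw [hH2 c]
      constructor
      · rintro ⟨⟨h7, h8⟩, h9⟩
        refine ⟨h7, fun q hq => ?_⟩
        rcases Finset.mem_insert.1 hq with rfl | hq
        · exact h8
        · exact h9 q hq
      · rintro ⟨h7, h8⟩
        exact ⟨⟨h7, h8 p hpI⟩, fun q hq => h8 q (Finset.mem_insert_of_mem hq)⟩
    · refine Finset.card_image_le.trans ?_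
      rw [Finset.card_product, Finset.card_insert_of_notMem hp, pow_succ, mul_comm (e ^ Z.card)]
      exact Nat.mul_le_mul h1 h4
    · intro x hx
      obtain ⟨y, hy, rfl⟩ := Finset.mem_image.1 hx
      obtain ⟨hy1, hy2⟩ := Finset.mem_product.1 hy
      exact H.mul_mem (h2 _ hy1) (h5 _ hy2).1
    · intro c hc
      obtain ⟨r, hr, h7⟩ := h3 c hc
      have hcr : c * r ∈ H' := ⟨H.mul_mem hc (h2 r hr), h7⟩
      obtain ⟨r', hr', h8⟩ := h6 _ hcr
      refine ⟨r * r', Finset.mem_image.2 ⟨(r, r'), Finset.mem_product.2 ⟨hr, hr'⟩, rfl⟩, ?_⟩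
      rw [← mul_assoc]
      exact h8

end reps

section val

lemma cvl_eq (c : Fam) {S : Finset ℕ} (hfin : {q | c q ≠ 1}.Finite) (hS : sp c ⊆ S) {p : ℕ}
    (hp : ∀ q ∈ S, p.Coprime q) :
    cvl c p = ∏ q ∈ S, if h : p.Coprime q then (c q (ZMod.unitOfCoprime p h) : ℂ) else 0 := by
  unfold cvl
  refine Finset.prod_subset hS fun q hq hn => ?_
  rw [dif_pos (hp q hq)]
  have h1 : c q = 1 := by
    by_contra h
    exact hn ((mem_sp hfin q).2 h)
  rw [h1]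
  rfl

lemma cvl_mul' {c c' : Fam} (hc : {q | c q ≠ 1}.Finite) (hc' : {q | c' q ≠ 1}.Finite) {p : ℕ}
    (hp : ∀ q, c q ≠ 1 ∨ c' q ≠ 1 → p.Coprime q) : cvl (c * c') p = cvl c p * cvl c' p := by
  have hcc : {q | (c * c') q ≠ 1}.Finite := by
    refine (hc.union hc').subset fun q hq => ?_
    by_contra h
    simp only [Set.mem_union, Set.mem_setOf_eq, not_or, not_not] at h
    apply hq
    show c q * c' q = 1
    rw [h.1, h.2]
    exact one_mul (1 : (ZMod q)ˣ →* ℂˣ)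
  have hsub : sp (c * c') ⊆ sp c ∪ sp c' := by
    intro q hq
    rw [mem_sp hcc] at hq
    rw [Finset.mem_union, mem_sp hc, mem_sp hc']
    by_contra h
    rw [not_or, not_not, not_not] at h
    apply hq
    show c q * c' q = 1
    rw [h.1, h.2]
    exact one_mul (1 : (ZMod q)ˣ →* ℂˣ)
  have hpS : ∀ q ∈ sp c ∪ sp c', p.Coprime q := by
    intro q hq
    rw [Finset.mem_union, mem_sp hc, mem_sp hc'] at hq
    exact hp q hq
  rw [cvl_eq _ hcc hsub hpS, cvl_eq c hc Finset.subset_union_left hpS,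
    cvl_eq c' hc' Finset.subset_union_right hpS, ← Finset.prod_mul_distrib]
  refine Finset.prod_congr rfl fun q hq => ?_
  rw [dif_pos (hpS q hq), dif_pos (hpS q hq), dif_pos (hpS q hq)]
  show ((c q * c' q) _ : ℂˣ).val = _
  rw [MonoidHom.mul_apply, Units.val_mul]

lemma cvl_pow' {c : Fam} (hc : {q | c q ≠ 1}.Finite) {e : ℕ} (h : c ^ e = 1) {p : ℕ}
    (hp : ∀ q, c q ≠ 1 → p.Coprime q) : cvl c p ^ e = 1 := by
  unfold cvl
  rw [← Finset.prod_pow]
  refine Finset.prod_eq_one fun q hq => ?_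
  rw [dif_pos (hp q ((mem_sp hc q).1 hq))]
  have h1 : (c q) ^ e = 1 := by
    have := congrFun h q
    simpa using this
  have h2 := DFunLike.congr_fun h1 (ZMod.unitOfCoprime p (hp q ((mem_sp hc q).1 hq)))
  rw [MonoidHom.pow_apply] at h2
  have h3 := congrArg Units.val h2
  rw [Units.val_pow_eq_pow_val] at h3
  exact h3

/-- the subgroup of the characters with value `1` at the primes in `Z`, and representatives -/
theorem split_group (H : Subgroup Fam) {e : ℕ} (he : 0 < e) (hpow : ∀ c ∈ H, c ^ e = 1)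
    (hfin : ∀ c ∈ H, {q | c q ≠ 1}.Finite) (Z : Finset ℕ)
    (hZ : ∀ p ∈ Z, ∀ c ∈ H, ∀ q, c q ≠ 1 → p.Coprime q) :
    ∃ H' : Subgroup Fam, (∀ c, c ∈ H' ↔ c ∈ H ∧ ∀ p ∈ Z, cvl c p = 1) ∧
      ∃ R : Finset Fam, R.card ≤ e ^ Z.card ∧ (∀ r ∈ R, r ∈ H) ∧ ∀ c ∈ H, ∃ r ∈ R, c * r ∈ H' := by
  refine reps (G := Fam) Z (fun p c => cvl c p) he H ?_ ?_
  · intro p hp c hc c' hc'
    refine cvl_mul' (hfin c hc) (hfin c' hc') fun q hq => ?_
    rcases hq with h | h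
    · exact hZ p hp c hc q h
    · exact hZ p hp c' hc' q h
  · exact fun p hp c hc => cvl_pow' (hfin c hc) (hpow c hc) (hZ p hp c hc)

/-- an infinite group has an infinite splitting subgroup -/
lemma infinite_of_reps {G : Type} [CommGroup G] {H H' : Subgroup G} (hinf : (H : Set G).Infinite)
    (R : Finset G) (h : ∀ c ∈ H, ∃ r ∈ R, c * r ∈ H') : (H' : Set G).Infinite := by
  intro hfin
  apply hinf
  refine ((R.finite_toSet.prod hfin).image (fun x : G × G => x.2 * x.1⁻¹)).subset ?_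
  intro c hc
  obtain ⟨r, hr, h1⟩ := h c hc
  exact ⟨(r, c * r), ⟨hr, h1⟩, by simp⟩

end val

/-- the number of points modulo an admissible prime -/
lemma odd_pts' {W : WeierstrassCurve ℤ} {q : ℕ} (h1 : Pool.Agent.W263.BSD.GoodPrime (ca W) (cb W) q)
    (h2 : ¬ 2 ∣ Pool.Agent.W263.BSD.pointCount (ca W) (cb W) q + 1) :
    ¬ (q : ℤ) ∣ 2 * W.Δ ∧ Odd ((q : ℤ) - pts W (ZMod q)) := by
  obtain ⟨hq, hd, hq2, hq3⟩ := good_iff' h1
  haveI : Fact q.Prime := ⟨hq⟩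
  refine ⟨hd, ?_⟩
  have n2 : (2 : ZMod q) ≠ 0 := by
    intro h
    have h4 : ((2 : ℕ) : ZMod q) = 0 := by exact_mod_cast h
    rw [ZMod.natCast_eq_zero_iff] at h4
    exact hq2 ((Nat.prime_dvd_prime_iff_eq hq Nat.prime_two).1 h4)
  have n3 : (3 : ZMod q) ≠ 0 := by
    intro h
    have h4 : ((3 : ℕ) : ZMod q) = 0 := by exact_mod_cast h
    rw [ZMod.natCast_eq_zero_iff] at h4
    exact hq3 ((Nat.prime_dvd_prime_iff_eq hq Nat.prime_three).1 h4)
  rw [pts_eq W q n2 n3]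
  have h5 : Even (Pool.Agent.W263.BSD.pointCount (ca W) (cb W) q) := by
    rw [← even_iff_two_dvd] at h2
    rw [Nat.even_add_one, not_not] at h2
    exact h2
  have h6 : Odd (q : ℤ) := by exact_mod_cast hq.odd_of_ne_two hq2
  exact h6.sub_even (by exact_mod_cast h5)

/-- the primes dividing one of the numbers `2 Δ_i` -/
noncomputable def badp {m : ℕ} (W : Fin m → WeierstrassCurve ℤ) : Finset ℕ :=
  (∏ i, (2 * (W i).Δ)).natAbs.primeFactors

lemma mem_badp {m : ℕ} {W : Fin m → WeierstrassCurve ℤ} (hΔ : ∀ i, (W i).Δ < 0) (p : ℕ) :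
    p ∈ badp W ↔ p.Prime ∧ ∃ i, (p : ℤ) ∣ 2 * (W i).Δ := by
  have hD0' : (∏ i, (2 * (W i).Δ)) ≠ 0 :=
    Finset.prod_ne_zero_iff.2 fun i _ => mul_ne_zero (by norm_num) (hΔ i).ne
  unfold badp
  rw [Nat.mem_primeFactors_of_ne_zero (by simpa using hD0'), ← Int.natCast_dvd]
  constructor
  · rintro ⟨h1, h2⟩
    refine ⟨h1, ?_⟩
    rw [(Nat.prime_iff_prime_int.1 h1).dvd_finsetProd_iff] at h2
    obtain ⟨i, -, h3⟩ := h2
    exact ⟨i, h3⟩
  · rintro ⟨h1, i, h2⟩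
    exact ⟨h1, h2.trans (Finset.dvd_prod_of_mem (fun i => 2 * (W i).Δ) (Finset.mem_univ i))⟩

/-- the splitting subgroup for several curves -/
theorem split_curves {m : ℕ} {W : Fin m → WeierstrassCurve ℤ} (hΔ : ∀ i, (W i).Δ < 0) (n : ℕ)
    (H : Subgroup Fam)
    (hH : Pool.Agent.Y18.LP.HOk m (fun i => ca (W i)) (fun i => cb (W i)) 2 n H) :
    ∃ H' : Subgroup Fam, H' ≤ H ∧ (∀ c ∈ H', ∀ p ∈ badp W, cvl c p = 1) ∧
      ∃ R : Finset Fam, R.card ≤ (2 ^ n) ^ (badp W).card ∧ (∀ r ∈ R, r ∈ H) ∧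
        ∀ c ∈ H, ∃ r ∈ R, c * r ∈ H' := by
  obtain ⟨H', h1, R, h2, h3, h4⟩ := split_group H (pow_pos two_pos n) hH.pow hH.fin (badp W) (by
    intro p hp c hc q hq
    obtain ⟨hpp, i, hpi⟩ := (mem_badp hΔ p).1 hp
    obtain ⟨hqp, hqa⟩ := hH.adm c hc q hq
    rw [Nat.coprime_primes hpp hqp]
    rintro rfl
    exact (odd_pts' (hqa i).1 (hqa i).2).1 hpi)
  exact ⟨H', fun c hc => ((h1 c).1 hc).1, fun c hc => ((h1 c).1 hc).2, R, h2, h3, h4⟩

/-- the points over the fields of the splitting group -/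
theorem finite_curves {m : ℕ} {W : Fin m → WeierstrassCurve ℤ} (hΔ : ∀ i, (W i).Δ < 0)
    (hS : ∀ i, Finite (base (W i) ℚ).toAffine.Point ∧ Odd (Nat.card (base (W i) ℚ).toAffine.Point) ∧
      ∀ s : Pool.Agent.TH841.NF.D.Sha (base (W i) ℚ), 2 • s = 0 → s = 0) (n : ℕ)
    (H : Subgroup Fam)
    (hH : Pool.Agent.Y18.LP.HOk m (fun i => ca (W i)) (fun i => cb (W i)) 2 n H)
    (hspl : ∀ c ∈ H, ∀ p ∈ badp W, cvl c p = 1) (F : IntermediateField ℚ ℂ) [NumberField F]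
    (hF : F ≤ IntermediateField.adjoin ℚ {x : ℂ | ∃ c ∈ H,
      x = Pool.Agent.Y18.LP.eta c (Complex.exp (2 * Real.pi * Complex.I / (dd (sp c) : ℕ)))})
    (i : Fin m) : Finite (twk (W i) F 1).toAffine.Point :=
  core_alg (W i) (hΔ i) (hS i).2.2 (hS i).1 (hS i).2.1 H n hH.pow hH.fin
    (fun c hc q hq => ⟨(hH.adm c hc q hq).1, odd_pts' ((hH.adm c hc q hq).2 i).1
      ((hH.adm c hc q hq).2 i).2⟩)
    (fun c hc p hp hpd => hspl c hc p ((mem_badp hΔ p).2 ⟨hp, i, hpd⟩)) F hF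

end Pool.Agent.R901.EC
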