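import Pool.Agent.R901.EC.Grp

/-!
# Correction subgroups: passing from a subgroup defined by quadratic symbols to the whole group
-/

set_option autoImplicit false

open scoped symmDiff

namespace Pool.Agent.R901.EC

/-- `H` contains a finite group `K` of order at most `2 ^ V` such that each coset of `K` in `H`
contains an element with the property `P` -/
def Corr (V : ℕ) (H : Set (Finset ℕ)) (P : Finset ℕ → Prop) : Prop :=
  ∃ K : Finset (Finset ℕ), K.card ≤ 2 ^ V ∧ ∅ ∈ K ∧ (∀ S ∈ K, ∀ T ∈ K, S ∆ T ∈ K) ∧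
    (∀ T ∈ K, T ∈ H) ∧ ∀ T ∈ H, ∃ k ∈ K, P (T ∆ k)

lemma Corr.mono {V V' : ℕ} (h : V ≤ V') {H : Set (Finset ℕ)} {P : Finset ℕ → Prop}
    (hc : Corr V H P) : Corr V' H P := by
  obtain ⟨K, h1, h2⟩ := hc
  exact ⟨K, h1.trans (Nat.pow_le_pow_right (by norm_num) h), h2⟩

/-- one quadratic condition -/
lemma corr_step {V : ℕ} {H : Set (Finset ℕ)} (hH : ∀ S ∈ H, ∀ T ∈ H, S ∆ T ∈ H)
    {P : Finset ℕ → Prop} (χ : Finset ℕ → ℤ) (hχ : ∀ T ∈ H, χ T = 1 ∨ χ T = -1)
    (hmul : ∀ S ∈ H, ∀ T ∈ H, χ (S ∆ T) = χ S * χ T)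
    (hc : Corr V {T | T ∈ H ∧ χ T = 1} P) : Corr (V + 1) H P := by
  classical
  obtain ⟨K, hK1, hK2, hK3, hK4, hK5⟩ := hc
  by_cases hall : ∀ T ∈ H, χ T = 1
  · refine ⟨K, hK1.trans (Nat.pow_le_pow_right (by norm_num) (Nat.le_succ V)), hK2, hK3,
      fun T hT => (hK4 T hT).1, fun T hT => hK5 T ⟨hT, hall T hT⟩⟩
  · push Not at hall
    obtain ⟨T0, hT0, hne⟩ := hall
    have hm1 : χ T0 = -1 := (hχ T0 hT0).resolve_left hne
    refine ⟨K ∪ K.image (fun k => T0 ∆ k), ?_, ?_, ?_, ?_, ?_⟩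
    · refine (Finset.card_union_le _ _).trans ?_
      have h1 : (K.image (fun k => T0 ∆ k)).card ≤ K.card := Finset.card_image_le
      rw [pow_succ]
      omega
    · exact Finset.mem_union_left _ hK2
    · intro S hS T hT
      rcases Finset.mem_union.1 hS with hS | hS <;> rcases Finset.mem_union.1 hT with hT | hT
      · exact Finset.mem_union_left _ (hK3 S hS T hT)
      · obtain ⟨k, hk, rfl⟩ := Finset.mem_image.1 hT
        refine Finset.mem_union_right _ (Finset.mem_image.2 ⟨S ∆ k, hK3 S hS k hk, ?_⟩)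
        show T0 ∆ (S ∆ k) = S ∆ (T0 ∆ k)
        exact symmDiff_left_comm _ _ _
      · obtain ⟨k, hk, rfl⟩ := Finset.mem_image.1 hS
        refine Finset.mem_union_right _ (Finset.mem_image.2 ⟨k ∆ T, hK3 k hk T hT, ?_⟩)
        show T0 ∆ (k ∆ T) = (T0 ∆ k) ∆ T
        exact (symmDiff_assoc _ _ _).symm
      · obtain ⟨k, hk, rfl⟩ := Finset.mem_image.1 hS
        obtain ⟨k', hk', rfl⟩ := Finset.mem_image.1 hT
        refine Finset.mem_union_left _ ?_
        have e : (T0 ∆ k) ∆ (T0 ∆ k') = k ∆ k' := by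
          rw [symmDiff_symmDiff_symmDiff_comm, symmDiff_self, bot_symmDiff]
        rw [e]
        exact hK3 k hk k' hk'
    · intro T hT
      rcases Finset.mem_union.1 hT with hT | hT
      · exact (hK4 T hT).1
      · obtain ⟨k, hk, rfl⟩ := Finset.mem_image.1 hT
        exact hH _ hT0 _ (hK4 k hk).1
    · intro T hT
      rcases hχ T hT with h1 | h1
      · obtain ⟨k, hk, h2⟩ := hK5 T ⟨hT, h1⟩
        exact ⟨k, Finset.mem_union_left _ hk, h2⟩
      · obtain ⟨k, hk, h2⟩ := hK5 (T ∆ T0) ⟨hH _ hT _ hT0, by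
          rw [hmul _ hT _ hT0, h1, hm1]; norm_num⟩
        refine ⟨T0 ∆ k, Finset.mem_union_right _ (Finset.mem_image.2 ⟨k, hk, rfl⟩), ?_⟩
        rw [← symmDiff_assoc]
        exact h2

lemma jac_prod' {T : Finset ℕ} (hT : ∀ q ∈ T, q.Prime) (n : ℤ) :
    jacobiSym n (∏ q ∈ T, q) = ∏ q ∈ T, jacobiSym n q := by
  classical
  induction T using Finset.induction_on with
  | empty => simp [jacobiSym.one_right]
  | insert q T hq ih =>
    have h1 : ∀ x ∈ T, x.Prime := fun x hx => hT x (Finset.mem_insert_of_mem hx)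
    have : NeZero (∏ x ∈ T, x) := ⟨(Finset.prod_pos fun x hx => (h1 x hx).pos).ne'⟩
    have : NeZero q := ⟨(hT q (Finset.mem_insert_self q T)).ne_zero⟩
    rw [Finset.prod_insert hq, Finset.prod_insert hq, jacobiSym.mul_right, ih h1]

lemma jac_pm {T : Finset ℕ} (hT : ∀ q ∈ T, q.Prime) {p : ℕ} (hp : p.Prime) (hpT : p ∉ T) :
    jacobiSym p (∏ q ∈ T, q) = 1 ∨ jacobiSym p (∏ q ∈ T, q) = -1 := by
  apply jacobiSym.eq_one_or_neg_one
  rw [Int.gcd_natCast_natCast]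
  refine Nat.Coprime.prod_right fun q hq => ?_
  rw [Nat.coprime_primes hp (hT q hq)]
  rintro rfl
  exact hpT hq

lemma jac_symm {S T : Finset ℕ} (hS : ∀ q ∈ S, q.Prime) (hT : ∀ q ∈ T, q.Prime) {p : ℕ}
    (hp : p.Prime) (hpS : p ∉ S) :
    jacobiSym p (∏ q ∈ S ∆ T, q) = jacobiSym p (∏ q ∈ S, q) * jacobiSym p (∏ q ∈ T, q) := by
  classical
  have hST : ∀ q ∈ S ∆ T, q.Prime := by
    intro q hq
    rcases Finset.mem_symmDiff.1 hq with h | h
    · exact hS q h.1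
    · exact hT q h.1
  rw [jac_prod' hST, jac_prod' hS, jac_prod' hT]
  have e : S ∆ T = (S \ T) ∪ (T \ S) := rfl
  have hd : Disjoint (S \ T) (T \ S) := by
    rw [Finset.disjoint_left]
    intro q h2 h3
    exact (Finset.mem_sdiff.1 h3).2 (Finset.mem_sdiff.1 h2).1
  rw [e, Finset.prod_union hd]
  rw [← Finset.prod_sdiff (Finset.inter_subset_left (s₁ := S) (s₂ := T)),
    ← Finset.prod_sdiff (Finset.inter_subset_right (s₁ := S) (s₂ := T))]
  rw [Finset.sdiff_inter_self_left, Finset.inter_comm S T, Finset.sdiff_inter_self_left]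
  have hsq : (∏ q ∈ T ∩ S, jacobiSym (p : ℤ) q) * ∏ q ∈ T ∩ S, jacobiSym (p : ℤ) q = 1 := by
    rw [← Finset.prod_mul_distrib]
    refine Finset.prod_eq_one fun q hq => ?_
    have hqS := (Finset.mem_inter.1 hq).2
    have h1 : jacobiSym (p : ℤ) q = 1 ∨ jacobiSym (p : ℤ) q = -1 := by
      apply jacobiSym.eq_one_or_neg_one
      rw [Int.gcd_natCast_natCast, Nat.coprime_iff_gcd_eq_one.symm,
        Nat.coprime_primes hp (hS q hqS)]
      rintro rfl
      exact hpS hqS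
    rcases h1 with h | h <;> rw [h] <;> norm_num
  calc _ = (∏ q ∈ S \ T, jacobiSym (p : ℤ) q) * (∏ q ∈ T \ S, jacobiSym (p : ℤ) q) * 1 := by
        rw [mul_one]
    _ = _ := by
        rw [← hsq]
        ring

/-- finitely many quadratic conditions -/
lemma corr_all (Z : Finset ℕ) (hZ : ∀ p ∈ Z, p.Prime) {V : ℕ} {P : Finset ℕ → Prop} :
    ∀ {H : Set (Finset ℕ)}, ∅ ∈ H → (∀ S ∈ H, ∀ T ∈ H, S ∆ T ∈ H) →
    (∀ T ∈ H, ∀ q ∈ T, q.Prime ∧ q ∉ Z) →
    Corr V {T | T ∈ H ∧ ∀ p ∈ Z, jacobiSym p (∏ q ∈ T, q) = 1} P → Corr (V + Z.card) H P := by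
  classical
  induction Z using Finset.induction_on with
  | empty =>
    intro H h0 hH hp hc
    have e : {T | T ∈ H ∧ ∀ p ∈ (∅ : Finset ℕ), jacobiSym p (∏ q ∈ T, q) = 1} = H := by
      ext T
      simp
    rw [e] at hc
    simpa using hc
  | insert p Z hpn ih =>
    intro H h0 hH hp hc
    have hpp : p.Prime := hZ p (Finset.mem_insert_self p Z)
    have hprime : ∀ T ∈ H, ∀ q ∈ T, q.Prime := fun T hT q hq => (hp T hT q hq).1
    have hpT : ∀ T ∈ H, p ∉ T := fun T hT hq => (hp T hT p hq).2 (Finset.mem_insert_self p Z)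
    have hmul : ∀ S ∈ H, ∀ T ∈ H, jacobiSym p (∏ q ∈ S ∆ T, q) =
        jacobiSym p (∏ q ∈ S, q) * jacobiSym p (∏ q ∈ T, q) := fun S hS T hT =>
      jac_symm (hprime S hS) (hprime T hT) hpp (hpT S hS)
    have h1 : Corr (V + Z.card) {T | T ∈ H ∧ jacobiSym p (∏ q ∈ T, q) = 1} P := by
      refine ih (fun q hq => hZ q (Finset.mem_insert_of_mem hq))
        (H := {T | T ∈ H ∧ jacobiSym p (∏ q ∈ T, q) = 1}) ⟨h0, by simp [jacobiSym.one_right]⟩ ?_ ?_ ?_
      · rintro S ⟨hS, hS1⟩ T ⟨hT, hT1⟩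
        refine ⟨hH S hS T hT, ?_⟩
        rw [hmul S hS T hT, hS1, hT1, mul_one]
      · rintro T ⟨hT, -⟩ q hq
        exact ⟨(hp T hT q hq).1, fun h => (hp T hT q hq).2 (Finset.mem_insert_of_mem h)⟩
      · have e : {T | T ∈ {T | T ∈ H ∧ jacobiSym p (∏ q ∈ T, q) = 1} ∧
            ∀ p ∈ Z, jacobiSym p (∏ q ∈ T, q) = 1} =
            {T | T ∈ H ∧ ∀ p' ∈ insert p Z, jacobiSym p' (∏ q ∈ T, q) = 1} := by
          ext T
          simp only [Set.mem_setOf_eq, Finset.mem_insert, forall_eq_or_imp]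
          tauto
        rw [e]
        exact hc
    have h2 := corr_step hH (fun T => jacobiSym p (∏ q ∈ T, q))
      (fun T hT => jac_pm (hprime T hT) hpp (hpT T hT)) hmul h1
    rw [Finset.card_insert_of_notMem hpn, ← add_assoc]
    exact h2

end Pool.Agent.R901.EC
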