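import Pool.Agent.Y702.F.Unr
import Pool.Agent.Y809.BS.Sel4
import Pool.Agent.Y809.BS.Desc
import Pool.Agent.Y809.BS.Inv
import Pool.Agent.Y809.BS.Kum2
import Pool.Agent.Y154.NPar
import Pool.Agent.Y154.KUnr
import Pool.Agent.Y180.Y702.SCubic
import Pool.Agent.Y852.Two

/-!
# The 2-Selmer group of `X_0(11)` over `ℚ`
-/

set_option autoImplicit false

open NumberField IsDedekindDomain

namespace Pool.Agent.R901.EC

open Pool.Agent.Y702 (E11)

/-- `X_0(11)(ℚ)` is finite of odd order and `Ш(X_0(11)/ℚ)` has no element of order two -/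
theorem sel11 : (∀ s : Pool.Agent.TH841.NF.D.Sha (E11.map (Int.castRingHom ℚ)), 2 • s = 0 → s = 0) ∧
    Finite (E11.map (Int.castRingHom ℚ)).toAffine.Point ∧
    Odd (Nat.card (E11.map (Int.castRingHom ℚ)).toAffine.Point) := by
  have e : (DivisionRing.toRatAlgebra : Algebra ℚ ℚ) = Algebra.id ℚ := Subsingleton.elim _ _
  have hc1 : @IsCyclotomicExtension {1} ℚ ℚ _ _ DivisionRing.toRatAlgebra := by
    rw [e]
    exact IsCyclotomicExtension.singleton_one_of_algebraMap_bijective Function.surjective_id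
  have hg : @IsGalois ℚ _ ℚ _ DivisionRing.toRatAlgebra := by
    rw [e]
    exact IsGalois.self ℚ
  obtain ⟨hcub, hsel⟩ := Pool.Agent.Y809.BS.s_sel Pool.Agent.Y809.BS.s_inv
    Pool.Agent.Y180.Y702.s_cubic Pool.Agent.Y852.Two.s_two Pool.Agent.Y809.BS.s_kum
    Pool.Agent.Y154.s_unr Pool.Agent.Y154.s_npar ℚ 0 1 (by rw [Module.finrank_self]; rfl)
    (Nat.coprime_one_left 22) (fun l hl h => absurd (Nat.dvd_one.1 h) hl.one_lt.ne')
    (fun p hp hpm v hv => Pool.Agent.Y702.Fn.val_cyc 1 ℚ hp hpm v hv)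
  exact Pool.Agent.Y809.BS.s_desc ℚ hsel hcub

end Pool.Agent.R901.EC
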