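import Mathlib

/-!
# Groups of finite sets of primes and correction subgroups: counting
-/

set_option autoImplicit false

open scoped symmDiff

namespace Pool.Agent.R901.EC

/-- counting with a finite set of corrections -/
lemma count_le {H A B : Set (Finset ℕ)} (K : Finset (Finset ℕ)) {P : Finset ℕ → Prop}
    (h : ∀ T ∈ H, ∃ k ∈ K, P (T ∆ k)) (hA : A ⊆ H) (hB : B.Finite)
    (hAB : ∀ T ∈ A, ∀ k ∈ K, P (T ∆ k) → T ∆ k ∈ B) : A.ncard ≤ K.card * B.ncard := by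
  classical
  choose! c hc1 hc2 using h
  have h1 : A.ncard ≤ ((K : Set (Finset ℕ)) ×ˢ B).ncard := by
    refine Set.ncard_le_ncard_of_injOn (fun T => (c T, T ∆ c T)) ?_ ?_
      ((Finset.finite_toSet K).prod hB)
    · intro T hT
      exact ⟨hc1 T (hA hT), hAB T hT _ (hc1 T (hA hT)) (hc2 T (hA hT))⟩
    · intro T hT T' hT' he
      simp only [Prod.mk.injEq] at he
      obtain ⟨h2, h3⟩ := he
      rw [h2] at h3
      exact symmDiff_left_injective _ h3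
  rw [Set.ncard_prod, Set.ncard_coe_finset] at h1
  exact h1

lemma prod_pos' {T : Finset ℕ} (hT : ∀ q ∈ T, q.Prime) : 0 < ∏ q ∈ T, q :=
  Finset.prod_pos fun q hq => (hT q hq).pos

lemma prod_symm_le {T k : Finset ℕ} (hT : ∀ q ∈ T, q.Prime) (hk : ∀ q ∈ k, q.Prime) :
    ∏ q ∈ T ∆ k, q ≤ (∏ q ∈ T, q) * ∏ q ∈ k, q := by
  classical
  have h1 : T ∆ k = (T \ k) ∪ (k \ T) := rfl
  have hd : Disjoint (T \ k) (k \ T) := by
    rw [Finset.disjoint_left]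
    intro q h2 h3
    exact (Finset.mem_sdiff.1 h3).2 (Finset.mem_sdiff.1 h2).1
  rw [h1, Finset.prod_union hd]
  refine Nat.mul_le_mul ?_ ?_
  · exact Nat.le_of_dvd (prod_pos' hT) (Finset.prod_dvd_prod_of_subset _ _ _ Finset.sdiff_subset)
  · exact Nat.le_of_dvd (prod_pos' hk) (Finset.prod_dvd_prod_of_subset _ _ _ Finset.sdiff_subset)

lemma finite_le (X : ℕ) : {T : Finset ℕ | (∀ q ∈ T, q.Prime) ∧ ∏ q ∈ T, q ≤ X}.Finite := by
  refine Set.Finite.subset (Finset.finite_toSet (Finset.powerset (Finset.range (X + 1)))) ?_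
  rintro T ⟨h1, h2⟩
  rw [Finset.mem_coe, Finset.mem_powerset]
  intro q hq
  rw [Finset.mem_range]
  have h3 : q ≤ ∏ q ∈ T, q := Nat.le_of_dvd (prod_pos' h1) (Finset.dvd_prod_of_mem _ hq)
  omega

/-- the number of the elements of a group with the property `P` -/
lemma many_of {H : Set (Finset ℕ)} (hH : ∀ S ∈ H, ∀ T ∈ H, S ∆ T ∈ H)
    (hp : ∀ T ∈ H, ∀ q ∈ T, q.Prime) (V : ℕ) (K : Finset (Finset ℕ)) (hK : K.card ≤ 2 ^ V)
    (hKH : ∀ k ∈ K, k ∈ H) {P : Finset ℕ → Prop} (h : ∀ T ∈ H, ∃ k ∈ K, P (T ∆ k)) :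
    (H.Finite → H.ncard ≤ 2 ^ V * {T | T ∈ H ∧ P T}.ncard) ∧
    ∃ C : ℕ, ∀ X : ℕ, {T | T ∈ H ∧ ∏ q ∈ T, q ≤ X}.ncard ≤
      2 ^ V * {T | (T ∈ H ∧ P T) ∧ ∏ q ∈ T, q ≤ C * X}.ncard := by
  classical
  refine ⟨fun hfin => ?_, ∏ k ∈ K, ∏ q ∈ k, q, fun X => ?_⟩
  · refine (count_le K h le_rfl (B := {T | T ∈ H ∧ P T})
      (hfin.subset fun T hT => hT.1) ?_).trans (Nat.mul_le_mul_right _ hK)
    intro T hT k hk h1
    exact ⟨hH _ hT _ (hKH k hk), h1⟩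
  · refine (count_le (A := {T | T ∈ H ∧ ∏ q ∈ T, q ≤ X}) K h (fun T hT => hT.1)
      (B := {T | (T ∈ H ∧ P T) ∧ ∏ q ∈ T, q ≤ (∏ k ∈ K, ∏ q ∈ k, q) * X}) ?_ ?_).trans
        (Nat.mul_le_mul_right _ hK)
    · exact (finite_le _).subset fun T hT => ⟨hp T hT.1.1, hT.2⟩
    · rintro T ⟨hT, hX⟩ k hk h1
      refine ⟨⟨hH _ hT _ (hKH k hk), h1⟩, ?_⟩
      have h2 := prod_symm_le (hp T hT) (hp k (hKH k hk))
      have h3 : ∏ q ∈ k, q ≤ ∏ k ∈ K, ∏ q ∈ k, q :=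
        Nat.le_of_dvd (Finset.prod_pos fun k hk => prod_pos' (hp k (hKH k hk)))
          (Finset.dvd_prod_of_mem (fun k : Finset ℕ => ∏ q ∈ k, q) hk)
      calc ∏ q ∈ T ∆ k, q ≤ (∏ q ∈ T, q) * ∏ q ∈ k, q := h2
        _ ≤ X * ∏ k ∈ K, ∏ q ∈ k, q := Nat.mul_le_mul hX h3
        _ = _ := mul_comm _ _

end Pool.Agent.R901.EC
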