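import Pool.Agent.Y702.G.Sel2
import Pool.Agent.Y702.L.Eu
import Pool.Agent.Y702.F.Unr
import Pool.Agent.Y93.G.Inv
import Pool.Agent.Y141.G2.KUMP
import Pool.Agent.Y852.GS.Spl
import Pool.Agent.Y76.GPar.Par
import Pool.Agent.Y710.CV.Conv
import Pool.Agent.Y46.G2.Emb
import Pool.Agent.Y500.G.FLM
import Pool.Agent.Y67.LZ.Main
import Pool.Agent.Y125.DQ.Main
import Pool.Agent.Y355.G.Desc

/-!
# Elliptic curves with trivial 2-Selmer group over abelian 2-extensions: finiteness of the points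
-/

set_option autoImplicit false

open NumberField IsDedekindDomain Polynomial WithZero

namespace Pool.Agent.R901.EC

section frob

variable {m : ℕ} [NeZero m] (M : Type) [Field M] [NumberField M] [IsCyclotomicExtension {m} ℚ M]

/-- the automorphism `ζ ↦ ζ ^ p` is the Frobenius automorphism -/
theorem frob_pow (p : ℕ) [Fact p.Prime] (hpm : p.Coprime m) (σ : M ≃ₐ[ℚ] M)
    (hσ : IsCyclotomicExtension.autEquivPow M (cyclotomic.irreducible_rat (NeZero.pos m)) σ =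
      ZMod.unitOfCoprime p hpm) (A : Type) [CommRing A] [CharP A p] (φ : 𝓞 M →+* A) (x y : 𝓞 M)
    (hxy : (y : M) = σ x) : φ y = φ x ^ p := by
  have hz := IsCyclotomicExtension.zeta_spec m ℚ M
  set ζ := IsCyclotomicExtension.zeta m ℚ M with hζ
  have h3 : ζ ^ ((ZMod.unitOfCoprime p hpm : ZMod m)).val = σ ζ := by
    rw [← hσ]
    exact hz.autToPow_spec ℚ σ
  let τ : 𝓞 M →+* 𝓞 M := RingOfIntegers.mapRingHom σ.toRingEquiv.toRingHom
  have hτ : ∀ x : 𝓞 M, ((τ x : 𝓞 M) : M) = σ x := fun x => rfl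
  have hy : y = τ x := by
    apply RingOfIntegers.ext
    rw [hxy, hτ]
  rw [hy]
  let B := hz.integralPowerBasis
  have key : (φ.comp τ).toIntAlgHom = ((frobenius A p).comp φ).toIntAlgHom := by
    apply B.algHom_ext
    show φ (τ B.gen) = (φ B.gen) ^ p
    rw [← map_pow]
    congr 1
    apply RingOfIntegers.ext
    rw [hτ]
    have hg : ((B.gen : 𝓞 M) : M) = ζ := by
      show ((hz.integralPowerBasis.gen : 𝓞 M) : M) = ζ
      rw [hz.integralPowerBasis_gen]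
      rfl
    show σ ((B.gen : 𝓞 M) : M) = ((B.gen ^ p : 𝓞 M) : M)
    rw [show ((B.gen ^ p : 𝓞 M) : M) = ((B.gen : 𝓞 M) : M) ^ p from map_pow (algebraMap (𝓞 M) M) _ _, hg, ← h3]
    rw [ZMod.coe_unitOfCoprime]
    rw [ZMod.val_natCast]
    exact (pow_eq_pow_mod _ hz.pow_eq_one).symm
  exact RingHom.congr_fun (congrArg AlgHom.toRingHom key) x

/-- if the Frobenius automorphism at `p` fixes the field `K` then the residue fields of the
places of `K` above `p` are the prime field -/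
theorem norm_prime (K : IntermediateField ℚ M) (p : ℕ) [Fact p.Prime] (hpm : p.Coprime m)
    (σ : M ≃ₐ[ℚ] M)
    (hσ : IsCyclotomicExtension.autEquivPow M (cyclotomic.irreducible_rat (NeZero.pos m)) σ =
      ZMod.unitOfCoprime p hpm) (hfix : ∀ x ∈ K, σ x = x) (v : HeightOneSpectrum (𝓞 K))
    (hv : (p : 𝓞 K) ∈ v.asIdeal) : (Ideal.absNorm v.asIdeal).Prime := by
  have hp : p.Prime := Fact.out
  have hmax : v.asIdeal.IsMaximal := v.isMaximal
  obtain ⟨w, hwm, hwo⟩ := Ideal.exists_maximal_ideal_liesOver_of_isIntegral (S := 𝓞 M) v.asIdeal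
  have hcom : w.comap (algebraMap (𝓞 K) (𝓞 M)) = v.asIdeal := hwo.over.symm
  letI : Field (𝓞 M ⧸ w) := Ideal.Quotient.field w
  have hpw : (p : 𝓞 M) ∈ w := by
    have h1 : (p : 𝓞 K) ∈ w.comap (algebraMap (𝓞 K) (𝓞 M)) := by
      rw [hcom]; exact hv
    have h2 := Ideal.mem_comap.1 h1
    rwa [map_natCast] at h2
  haveI : CharP (𝓞 M ⧸ w) p := by
    refine ringChar.of_eq (CharP.ringChar_of_prime_eq_zero hp ?_)
    rw [← map_natCast (Ideal.Quotient.mk w)]
    exact Ideal.Quotient.eq_zero_iff_mem.2 hpw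
  have key : ∀ x : 𝓞 K, x ^ p - x ∈ v.asIdeal := by
    intro x
    rw [← hcom, Ideal.mem_comap, map_sub, map_pow, ← Ideal.Quotient.eq_zero_iff_mem, map_sub, map_pow]
    have h1 := frob_pow M p hpm σ hσ (𝓞 M ⧸ w) (Ideal.Quotient.mk w)
      (algebraMap (𝓞 K) (𝓞 M) x) (algebraMap (𝓞 K) (𝓞 M) x) (by
        have h2 : ((algebraMap (𝓞 K) (𝓞 M) x : 𝓞 M) : M) = ((x : K) : M) := rfl
        rw [h2]
        exact (hfix _ (x : K).2).symm)
    rw [← h1, sub_self]
  letI : Field (𝓞 K ⧸ v.asIdeal) := Ideal.Quotient.field v.asIdeal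
  haveI : Finite (𝓞 K ⧸ v.asIdeal) := Ideal.finiteQuotientOfFreeOfNeBot _ v.ne_bot
  letI : Fintype (𝓞 K ⧸ v.asIdeal) := Fintype.ofFinite _
  have hall : ∀ y : 𝓞 K ⧸ v.asIdeal, y ^ p = y := by
    intro y
    obtain ⟨x, rfl⟩ := Ideal.Quotient.mk_surjective y
    rw [← map_pow, ← sub_eq_zero, ← map_sub, Ideal.Quotient.eq_zero_iff_mem]
    exact key x
  have hcard : Fintype.card (𝓞 K ⧸ v.asIdeal) ≤ p := by
    classical
    have h1 : (Finset.univ : Finset (𝓞 K ⧸ v.asIdeal)) ⊆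
        ((X ^ p - X : (𝓞 K ⧸ v.asIdeal)[X]).roots.toFinset) := by
      intro y _
      rw [Multiset.mem_toFinset, mem_roots (FiniteField.X_pow_card_sub_X_ne_zero _ hp.one_lt)]
      simp [hall y]
    have h2 := Finset.card_le_card h1
    rw [Finset.card_univ] at h2
    refine h2.trans ((Multiset.toFinset_card_le _).trans ((card_roots' _).trans ?_))
    rw [FiniteField.X_pow_card_sub_X_natDegree_eq _ hp.one_lt]
  have hnorm : Ideal.absNorm v.asIdeal = Fintype.card (𝓞 K ⧸ v.asIdeal) := by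
    rw [Ideal.absNorm_apply, Submodule.cardQuot_apply, ← Nat.card_eq_fintype_card]
  haveI : CharP (𝓞 K ⧸ v.asIdeal) p := by
    refine ringChar.of_eq (CharP.ringChar_of_prime_eq_zero hp ?_)
    rw [← map_natCast (Ideal.Quotient.mk v.asIdeal)]
    exact Ideal.Quotient.eq_zero_iff_mem.2 hv
  obtain ⟨n, -, hn⟩ := FiniteField.card (𝓞 K ⧸ v.asIdeal) p
  have hn1 : (n : ℕ) = 1 := by
    rw [hn] at hcard
    have h1 : (n : ℕ) ≤ 1 := by
      by_contra h2
      have h3 : p ^ 1 < p ^ (n : ℕ) := Nat.pow_lt_pow_right hp.one_lt (by omega)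
      rw [pow_one] at h3
      omega
    have := n.pos
    omega
  rw [hnorm, hn, hn1, pow_one]
  exact hp

end frob

open Pool.Agent.Y702.G (base pts sh SelTriv)

open scoped Classical

/-- the places dividing `2 Δ` have degree one if the Frobenius automorphisms at the primes dividing
`2 Δ` fix `K` -/
theorem split_of (W : WeierstrassCurve ℤ) {m : ℕ} [NeZero m]
    (hm : ∀ l : ℕ, l.Prime → l ∣ m → ¬ (l : ℤ) ∣ 2 * W.Δ)
    (M : Type) [Field M] [NumberField M] [IsCyclotomicExtension {m} ℚ M]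
    (K : IntermediateField ℚ M)
    (hfix : ∀ (p : ℕ), p.Prime → (p : ℤ) ∣ 2 * W.Δ → ∀ (hpm : p.Coprime m) (σ : M ≃ₐ[ℚ] M),
      IsCyclotomicExtension.autEquivPow M (cyclotomic.irreducible_rat (NeZero.pos m)) σ =
        ZMod.unitOfCoprime p hpm → ∀ x ∈ K, σ x = x)
    (v : HeightOneSpectrum (𝓞 K)) (hv : ((2 * W.Δ : ℤ) : 𝓞 K) ∈ v.asIdeal) :
    (Ideal.absNorm v.asIdeal).Prime := by
  set q := Pool.Agent.H921R2.TatePole.below v with hq
  have h5 : ((q : ℕ) : ℤ) ∣ 2 * W.Δ := by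
    have h6 : (((2 * W.Δ).natAbs : ℕ) : 𝓞 K) ∈ v.asIdeal := by
      rcases Int.natAbs_eq (2 * W.Δ) with h8 | h8
      · rw [h8] at hv
        rw [Int.cast_natCast] at hv
        exact hv
      · rw [h8, Int.cast_neg, neg_mem_iff, Int.cast_natCast] at hv
        exact hv
    rw [Pool.Agent.H82R3.EK.natCast_mem_iff] at h6
    exact Int.natCast_dvd.2 h6
  have hqm : (q : ℕ).Coprime m := by
    rw [Nat.Prime.coprime_iff_not_dvd q.2]
    exact fun h => hm _ q.2 h h5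
  haveI : Fact (q : ℕ).Prime := ⟨q.2⟩
  obtain ⟨σ, hσ⟩ := (IsCyclotomicExtension.autEquivPow M
    (cyclotomic.irreducible_rat (NeZero.pos m))).surjective (ZMod.unitOfCoprime (q : ℕ) hqm)
  exact norm_prime M K (q : ℕ) hqm σ hσ (hfix _ q.2 h5 hqm σ hσ) v
    ((Pool.Agent.H82R3.EK.natCast_mem_iff v _).2 dvd_rfl)

/-- **Trivial 2-Selmer groups over abelian 2-extensions.** -/
theorem sel_fin (W : WeierstrassCurve ℤ) (hΔ : W.Δ < 0)
    (hsha : ∀ s : Pool.Agent.TH841.NF.D.Sha (base W ℚ), 2 • s = 0 → s = 0)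
    (hfin : Finite (base W ℚ).toAffine.Point) (hcard : Odd (Nat.card (base W ℚ).toAffine.Point))
    {m : ℕ} [NeZero m]
    (hm : ∀ l : ℕ, l.Prime → l ∣ m → ¬ (l : ℤ) ∣ 2 * W.Δ ∧ Odd ((l : ℤ) - pts W (ZMod l)))
    (M : Type) [Field M] [NumberField M] [IsCyclotomicExtension {m} ℚ M]
    (K : IntermediateField ℚ M) (n : ℕ) (hn : Module.finrank ℚ K = 2 ^ n)
    (hfix : ∀ (p : ℕ), p.Prime → (p : ℤ) ∣ 2 * W.Δ → ∀ (hpm : p.Coprime m) (σ : M ≃ₐ[ℚ] M),
      IsCyclotomicExtension.autEquivPow M (cyclotomic.irreducible_rat (NeZero.pos m)) σ =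
        ZMod.unitOfCoprime p hpm → ∀ x ∈ K, σ x = x) :
    (∀ s : Pool.Agent.TH841.NF.D.Sha (base W K), 2 • s = 0 → s = 0) ∧
      Finite (base W K).toAffine.Point ∧ Odd (Nat.card (base W K).toAffine.Point) := by
  have hgal : IsGalois ℚ K := Pool.Agent.Y702.L.gal_F m M K
  have hunr : ∀ (p : ℕ), p.Prime → ¬ p ∣ m → ∀ v : HeightOneSpectrum (𝓞 K), (p : 𝓞 K) ∈ v.asIdeal →
      v.valuation K (p : K) = WithZero.exp (-1 : ℤ) :=
    fun p hp hpm v hv => Pool.Agent.Y702.Fn.unr m M K hp hpm v hv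
  have hnr := Pool.Agent.Y702.G.no_root_of_odd W hΔ.ne hfin hcard
  have hsel := Pool.Agent.Y702.G.sel_main2 Pool.Agent.Y93.G.s_inv Pool.Agent.Y141.G2.s_kump
    Pool.Agent.Y852.GS.s_spl Pool.Agent.Y76.GPar.s_par
    (Pool.Agent.Y710.CV.s_conv Pool.Agent.Y46.G2.s_emb)
    (Pool.Agent.Y67.LZ.s_lz Pool.Agent.Y500.G.s_fl) Pool.Agent.Y125.DQ.s_descq
    W hΔ hnr hsha hfin hcard K n m hn hm hunr
    (split_of W (fun l hl hlm => (hm l hl hlm).1) M K hfix)
  exact Pool.Agent.Y355.G.s_desc W hΔ.ne K hsel (Pool.Agent.Y702.G.no_root _ hnr K n hn)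

end Pool.Agent.R901.EC
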