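import Pool.Agent.R901.EC.Sel
import Pool.Agent.Y18.NF.Chars
import Pool.Agent.Y18.BSD.Main

/-!
# Quadratic twists of elliptic curves with trivial 2-Selmer group: finiteness of the rational points
-/

set_option autoImplicit false

open NumberField IsDedekindDomain Polynomial WeierstrassCurve

namespace Pool.Agent.R901.EC

open Pool.Agent.Y702.G (base pts sh SelTriv)
open Pool.Agent.W263.BSD (pointCount GoodPrime IsLSeries)
open Pool.Agent.Y18.BSD (disc dd jc Adm RankZero)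

open scoped Classical

/-- `a = -27 c₄` -/
def ca (W : WeierstrassCurve ℤ) : ℤ := -27 * W.c₄
/-- `b = -54 c₆` -/
def cb (W : WeierstrassCurve ℤ) : ℤ := -54 * W.c₆

lemma ca_cb (W : WeierstrassCurve ℤ) : 4 * ca W ^ 3 + 27 * cb W ^ 2 = -136048896 * W.Δ := by
  have h := W.c_relation
  unfold ca cb
  linear_combination (78732 : ℤ) * h

/-- the number of points of the two models modulo a prime `≠ 2, 3` -/
lemma pts_eq (W : WeierstrassCurve ℤ) (q : ℕ) [Fact q.Prime] (h2 : (2 : ZMod q) ≠ 0)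
    (h3 : (3 : ZMod q) ≠ 0) : pts W (ZMod q) = pointCount (ca W) (cb W) q := by
  unfold pts pointCount
  have h36 : (36 : ZMod q) ≠ 0 := by
    have e : (36 : ZMod q) = 2 ^ 2 * 3 ^ 2 := by norm_num
    rw [e]
    exact mul_ne_zero (pow_ne_zero _ h2) (pow_ne_zero _ h3)
  have h108 : (108 : ZMod q) ≠ 0 := by
    have e : (108 : ZMod q) = 2 ^ 2 * 3 ^ 3 := by norm_num
    rw [e]
    exact mul_ne_zero (pow_ne_zero _ h2) (pow_ne_zero _ h3)
  refine Nat.card_congr
    { toFun := fun P => ⟨(36 * P.1.1 + 3 * (W.b₂ : ZMod q),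
        108 * (2 * P.1.2 + (W.a₁ : ZMod q) * P.1.1 + (W.a₃ : ZMod q))), ?_⟩
      invFun := fun Q => ⟨((Q.1.1 - 3 * (W.b₂ : ZMod q)) / 36,
        (Q.1.2 / 108 - (W.a₁ : ZMod q) * ((Q.1.1 - 3 * (W.b₂ : ZMod q)) / 36) -
          (W.a₃ : ZMod q)) / 2), ?_⟩
      left_inv := ?_
      right_inv := ?_ }
  · have h := P.2
    rw [WeierstrassCurve.Affine.equation_iff] at h
    simp only [base, WeierstrassCurve.map, eq_intCast] at h
    simp only [ca, cb, WeierstrassCurve.c₄, WeierstrassCurve.c₆, WeierstrassCurve.b₂,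
      WeierstrassCurve.b₄, WeierstrassCurve.b₆]
    push_cast
    linear_combination 46656 * h
  · have h := Q.2
    rw [WeierstrassCurve.Affine.equation_iff]
    simp only [base, WeierstrassCurve.map, eq_intCast]
    simp only [ca, cb, WeierstrassCurve.c₄, WeierstrassCurve.c₆, WeierstrassCurve.b₂,
      WeierstrassCurve.b₄, WeierstrassCurve.b₆] at h
    push_cast at h
    simp only [WeierstrassCurve.b₂]
    push_cast
    set X := (Q.1.1 - 3 * ((W.a₁ : ZMod q) ^ 2 + 4 * (W.a₂ : ZMod q))) / 36 with hX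
    set Y := (Q.1.2 / 108 - (W.a₁ : ZMod q) * X - (W.a₃ : ZMod q)) / 2 with hY
    have e1 : Q.1.1 = 36 * X + 3 * ((W.a₁ : ZMod q) ^ 2 + 4 * (W.a₂ : ZMod q)) := by
      rw [hX]; field_simp; ring
    have e2 : Q.1.2 = 108 * (2 * Y + (W.a₁ : ZMod q) * X + (W.a₃ : ZMod q)) := by
      rw [hY]; field_simp; ring
    rw [e1, e2] at h
    have h46 : (46656 : ZMod q) ≠ 0 := by
      have e : (46656 : ZMod q) = 2 ^ 6 * 3 ^ 6 := by norm_num
      rw [e]
      exact mul_ne_zero (pow_ne_zero _ h2) (pow_ne_zero _ h3)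
    apply mul_left_cancel₀ h46
    linear_combination h
  · intro P
    apply Subtype.ext
    apply Prod.ext
    · show (36 * P.1.1 + 3 * (W.b₂ : ZMod q) - 3 * (W.b₂ : ZMod q)) / 36 = P.1.1
      field_simp
      ring
    · show (108 * (2 * P.1.2 + (W.a₁ : ZMod q) * P.1.1 + (W.a₃ : ZMod q)) / 108 -
        (W.a₁ : ZMod q) * ((36 * P.1.1 + 3 * (W.b₂ : ZMod q) - 3 * (W.b₂ : ZMod q)) / 36) -
          (W.a₃ : ZMod q)) / 2 = P.1.2
      field_simp
      ring
  · intro Q
    apply Subtype.ext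
    apply Prod.ext
    · show 36 * ((Q.1.1 - 3 * (W.b₂ : ZMod q)) / 36) + 3 * (W.b₂ : ZMod q) = Q.1.1
      field_simp
      ring
    · show 108 * (2 * ((Q.1.2 / 108 - (W.a₁ : ZMod q) * ((Q.1.1 - 3 * (W.b₂ : ZMod q)) / 36) -
          (W.a₃ : ZMod q)) / 2) + (W.a₁ : ZMod q) * ((Q.1.1 - 3 * (W.b₂ : ZMod q)) / 36) +
          (W.a₃ : ZMod q)) = Q.1.2
      field_simp
      ring

lemma good_iff' {W : WeierstrassCurve ℤ} {q : ℕ} (h : GoodPrime (ca W) (cb W) q) :
    q.Prime ∧ ¬ (q : ℤ) ∣ 2 * W.Δ ∧ q ≠ 2 ∧ q ≠ 3 := by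
  obtain ⟨hq, h1⟩ := h
  have e : 2 * (-4 * ca W ^ 3 - 27 * cb W ^ 2) = 136048896 * (2 * W.Δ) := by
    linear_combination (-2 : ℤ) * ca_cb W
  rw [e] at h1
  refine ⟨hq, fun h => h1 (Dvd.dvd.mul_left h _), ?_, ?_⟩
  · rintro rfl
    exact h1 (Dvd.dvd.mul_right (by norm_num) _)
  · rintro rfl
    exact h1 (Dvd.dvd.mul_right (by norm_num) _)

/-- the number of points modulo an admissible prime -/
lemma odd_pts {W : WeierstrassCurve ℤ} {q : ℕ} (h : Adm (ca W) (cb W) q) :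
    ¬ (q : ℤ) ∣ 2 * W.Δ ∧ Odd ((q : ℤ) - pts W (ZMod q)) := by
  obtain ⟨h1, h2⟩ := h
  obtain ⟨hq, hd, hq2, hq3⟩ := good_iff' h1
  haveI : Fact q.Prime := ⟨hq⟩
  refine ⟨hd, ?_⟩
  have n2 : (2 : ZMod q) ≠ 0 := by
    intro h
    have h4 : ((2 : ℕ) : ZMod q) = 0 := by exact_mod_cast h
    rw [ZMod.natCast_eq_zero_iff] at h4
    exact hq2 ((Nat.prime_dvd_prime_iff_eq hq Nat.prime_two).1 h4)
  have n3 : (3 : ZMod q) ≠ 0 := by
    intro h
    have h4 : ((3 : ℕ) : ZMod q) = 0 := by exact_mod_cast h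
    rw [ZMod.natCast_eq_zero_iff] at h4
    exact hq3 ((Nat.prime_dvd_prime_iff_eq hq Nat.prime_three).1 h4)
  rw [pts_eq W q n2 n3]
  have h5 := Pool.Agent.Y18.BSD.parity q hq2 (ca W) (cb W) h2
  have h6 : Odd (q : ℤ) := by exact_mod_cast hq.odd_of_ne_two hq2
  exact h6.sub_even (even_iff_two_dvd.2 h5)

section tw

variable (W : WeierstrassCurve ℤ) {k : Type} [Field k] (K : Type) [Field K] [CharZero K]
  (φ : k →+* K) (D : ℤ) (δ : K)

/-- the twist of the short model, over the field `k` -/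
abbrev twk (W : WeierstrassCurve ℤ) (k : Type) [Field k] (D : ℤ) : WeierstrassCurve k :=
  { a₁ := 0, a₂ := 0, a₃ := 0, a₄ := ((ca W * D ^ 2 : ℤ) : k), a₆ := ((cb W * D ^ 3 : ℤ) : k) }

/-- the `x`-coordinate of the image -/
noncomputable def fx (x : k) : K := (φ x / (D : K) - 3 * ((W.b₂ : ℤ) : K)) / 36

/-- the `y`-coordinate of the image -/
noncomputable def fy (x y : k) : K :=
  (φ y / ((D : K) * δ) / 108 - ((W.a₁ : ℤ) : K) * fx W K φ D x - ((W.a₃ : ℤ) : K)) / 2

variable {W K D δ}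

lemma fxy (hD : D ≠ 0) (hδ : δ ^ 2 = (D : K)) (hΔ : W.Δ ≠ 0) {x y : k}
    (h : (twk W k D).toAffine.Nonsingular x y) :
    (base W K).toAffine.Nonsingular (fx W K φ D x) (fy W K φ D δ x y) := by
  have hD' : (D : K) ≠ 0 := by exact_mod_cast hD
  have hδ0 : δ ≠ 0 := by
    rintro rfl
    rw [zero_pow two_ne_zero] at hδ
    exact hD' hδ.symm
  have hΔ' : (base W K).Δ ≠ 0 := by
    rw [WeierstrassCurve.map_Δ]
    simpa using hΔ
  rw [← WeierstrassCurve.Affine.equation_iff_nonsingular_of_Δ_ne_zero hΔ',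
    WeierstrassCurve.Affine.equation_iff]
  have h1 := h.1
  rw [WeierstrassCurve.Affine.equation_iff] at h1
  simp only [twk, zero_mul, add_zero] at h1
  have h2 : (φ y) ^ 2 = (φ x) ^ 3 + ((ca W : ℤ) : K) * (D : K) ^ 2 * (φ x) +
      ((cb W : ℤ) : K) * (D : K) ^ 3 := by
    have h3 := congrArg φ h1
    simp only [map_pow, map_add, map_mul, map_intCast] at h3
    push_cast at h3
    exact h3
  simp only [base, WeierstrassCurve.map, eq_intCast]
  set X := fx W K φ D x with hX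
  set Y := fy W K φ D δ x y with hY
  have e1 : φ x = (36 * X + 3 * ((W.b₂ : ℤ) : K)) * (D : K) := by
    rw [hX]
    unfold fx
    field_simp
    ring
  have e2 : φ y = 108 * (2 * Y + ((W.a₁ : ℤ) : K) * X + ((W.a₃ : ℤ) : K)) * ((D : K) * δ) := by
    rw [hY, hX]
    unfold fy
    field_simp
    ring
  rw [e1, e2] at h2
  have e3 : (108 * (2 * Y + ((W.a₁ : ℤ) : K) * X + ((W.a₃ : ℤ) : K)) * ((D : K) * δ)) ^ 2 =
      (108 * (2 * Y + ((W.a₁ : ℤ) : K) * X + ((W.a₃ : ℤ) : K))) ^ 2 * (D : K) ^ 3 := by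
    rw [mul_pow, mul_pow (D : K), hδ]
    ring
  rw [e3] at h2
  simp only [ca, cb, WeierstrassCurve.c₄, WeierstrassCurve.c₆, WeierstrassCurve.b₂,
    WeierstrassCurve.b₄, WeierstrassCurve.b₆] at h2
  push_cast at h2
  have h46 : (46656 : K) * (D : K) ^ 3 ≠ 0 := mul_ne_zero (by norm_num) (pow_ne_zero _ hD')
  apply mul_left_cancel₀ h46
  linear_combination h2

/-- the map from the points of the twist over `k` to the points over `K ∋ √D` -/
noncomputable def fpt (hD : D ≠ 0) (hδ : δ ^ 2 = (D : K)) (hΔ : W.Δ ≠ 0) :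
    (twk W k D).toAffine.Point → (base W K).toAffine.Point
  | .zero => .zero
  | .some x y h => .some (fx W K φ D x) (fy W K φ D δ x y) (fxy φ hD hδ hΔ h)

lemma fpt_inj (hD : D ≠ 0) (hδ : δ ^ 2 = (D : K)) (hΔ : W.Δ ≠ 0) :
    Function.Injective (fpt φ hD hδ hΔ : (twk W k D).toAffine.Point → _) := by
  have hD' : (D : K) ≠ 0 := by exact_mod_cast hD
  have hδ0 : δ ≠ 0 := by
    rintro rfl
    rw [zero_pow two_ne_zero] at hδ
    exact hD' hδ.symm
  rintro (_ | ⟨x, y, h⟩) (_ | ⟨x', y', h'⟩) he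
  · rfl
  · exact absurd he (by simp [fpt])
  · exact absurd he (by simp [fpt])
  · simp only [fpt, WeierstrassCurve.Affine.Point.some.injEq] at he
    obtain ⟨h1, h2⟩ := he
    have e1 : φ x = φ x' := by
      have h3 : fx W K φ D x = fx W K φ D x' := h1
      unfold fx at h3
      field_simp at h3
      have h4 : φ x - φ x' = 0 := by linear_combination h3
      exact sub_eq_zero.1 h4
    have e1' : x = x' := φ.injective e1
    subst e1'
    have e2 : φ y = φ y' := by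
      unfold fy at h2
      field_simp at h2
      have h4 : φ y - φ y' = 0 := by linear_combination h2
      exact sub_eq_zero.1 h4
    have e2' : y = y' := φ.injective e2
    subst e2'
    rfl

lemma twk_finite (φ : k →+* K) (hD : D ≠ 0) (hδ : δ ^ 2 = (D : K)) (hΔ : W.Δ ≠ 0)
    (h : Finite (base W K).toAffine.Point) : Finite (twk W k D).toAffine.Point :=
  Finite.of_injective _ (fpt_inj φ hD hδ hΔ)

end tw

/-- the degree of a field generated by a square root is one or two -/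
lemma finrank_sqrt {M : Type} [Field M] [NumberField M] (g : M) (D : ℤ) (hg : g ^ 2 = (D : M)) :
    ∃ n : ℕ, Module.finrank ℚ (IntermediateField.adjoin ℚ {g}) = 2 ^ n := by
  have hint : IsIntegral ℚ g := Algebra.IsIntegral.isIntegral g
  rw [IntermediateField.adjoin.finrank hint]
  have h1 : (minpoly ℚ g).natDegree ≤ 2 := by
    have h2 : minpoly ℚ g ∣ (X ^ 2 - C (D : ℚ)) := by
      apply minpoly.dvd
      simp [hg]
    have h3 := Polynomial.natDegree_le_of_dvd h2 (Polynomial.X_pow_sub_C_ne_zero (by norm_num) _)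
    rwa [Polynomial.natDegree_X_pow_sub_C] at h3
  have h2 := minpoly.natDegree_pos hint
  interval_cases h : (minpoly ℚ g).natDegree
  · exact ⟨0, by norm_num⟩
  · exact ⟨1, by norm_num⟩

lemma disc_ne {T : Finset ℕ} (hT : ∀ q ∈ T, q.Prime) : disc T ≠ 0 := by
  unfold disc
  rw [Finset.prod_ne_zero_iff]
  intro q hq
  exact mul_ne_zero (pow_ne_zero _ (by norm_num)) (by exact_mod_cast (hT q hq).ne_zero)

/-- **All the twists by admissible discriminants with the splitting condition have only finitely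
many rational points.** -/
theorem twist_finite (W : WeierstrassCurve ℤ) (hΔ : W.Δ < 0)
    (hsha : ∀ s : Pool.Agent.TH841.NF.D.Sha (base W ℚ), 2 • s = 0 → s = 0)
    (hfin : Finite (base W ℚ).toAffine.Point) (hcard : Odd (Nat.card (base W ℚ).toAffine.Point))
    (T : Finset ℕ) (hT : ∀ q ∈ T, Adm (ca W) (cb W) q)
    (hs : ∀ p : ℕ, p.Prime → (p : ℤ) ∣ 2 * W.Δ → jacobiSym p (∏ q ∈ T, q) = 1) :
    Finite (twk W ℚ (disc T)).toAffine.Point := by
  have hTp : ∀ q ∈ T, q.Prime ∧ q ≠ 2 := fun q hq =>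
    ⟨(good_iff' (hT q hq).1).1, (good_iff' (hT q hq).1).2.2.1⟩
  haveI : NeZero (dd T) := ⟨Pool.Agent.Y18.BSD.dd_ne_zero fun q hq => (hTp q hq).1⟩
  let M := CyclotomicField (dd T) ℚ
  have hcyc : IsCyclotomicExtension {dd T} ℚ M := CyclotomicField.isCyclotomicExtension (dd T) ℚ
  obtain ⟨g, hg, -⟩ := Pool.Agent.Y18.NF.gauss_T (dd T) M hTp (fun q hq => Finset.dvd_prod_of_mem _ hq)
  let K : IntermediateField ℚ M := IntermediateField.adjoin ℚ {g}
  obtain ⟨n, hn⟩ := finrank_sqrt g (disc T) hg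
  have hm : ∀ l : ℕ, l.Prime → l ∣ dd T → ¬ (l : ℤ) ∣ 2 * W.Δ ∧ Odd ((l : ℤ) - pts W (ZMod l)) := by
    intro l hl hlm
    have h1 : ∃ q ∈ T, l ∣ q := (Prime.dvd_finset_prod_iff (Nat.prime_iff.1 hl) _).1 hlm
    obtain ⟨q, hq, h2⟩ := h1
    have h3 : l = q := (Nat.prime_dvd_prime_iff_eq hl (hTp q hq).1).1 h2
    subst h3
    exact odd_pts (hT l hq)
  have hfix : ∀ (p : ℕ), p.Prime → (p : ℤ) ∣ 2 * W.Δ → ∀ (hpm : p.Coprime (dd T)) (σ : M ≃ₐ[ℚ] M),
      IsCyclotomicExtension.autEquivPow M (cyclotomic.irreducible_rat (NeZero.pos (dd T))) σ =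
        ZMod.unitOfCoprime p hpm → ∀ x ∈ K, σ x = x := by
    intro p hp hpd hpm σ hσ
    have h1 : σ g = g := by
      refine Pool.Agent.Y18.NF.root_act (dd T) M hTp (fun q hq => Finset.dvd_prod_of_mem _ hq) hg σ ?_
      have h2 : IsCyclotomicExtension.Rat.galEquivZMod (dd T) M σ = ZMod.unitOfCoprime p hpm := hσ
      rw [h2]
      unfold Pool.Agent.Y18.BSD.jc
      rw [ZMod.coe_unitOfCoprime, ZMod.val_natCast]
      rw [Int.natCast_mod, ← jacobiSym.mod_left]
      exact hs p hp hpd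
    intro x hx
    have h2 : K ≤ IntermediateField.fixedField (Subgroup.zpowers σ) := by
      show IntermediateField.adjoin ℚ {g} ≤ _
      rw [IntermediateField.adjoin_le_iff, Set.singleton_subset_iff]
      show g ∈ IntermediateField.fixedField (Subgroup.zpowers σ)
      rw [IntermediateField.mem_fixedField_iff]
      intro τ hτ
      obtain ⟨k, rfl⟩ := Subgroup.mem_zpowers_iff.1 hτ
      have h3 : σ • g = g := h1
      have h4 : σ ^ k ∈ MulAction.stabilizer (M ≃ₐ[ℚ] M) g :=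
        Subgroup.zpow_mem _ (MulAction.mem_stabilizer_iff.2 h3) k
      exact MulAction.mem_stabilizer_iff.1 h4
    have h3 := h2 hx
    rw [IntermediateField.mem_fixedField_iff] at h3
    exact h3 σ (Subgroup.mem_zpowers σ)
  obtain ⟨-, h1, -⟩ := sel_fin W hΔ hsha hfin hcard hm M K n hn hfix
  have hgK : g ∈ K := IntermediateField.mem_adjoin_simple_self ℚ g
  refine twk_finite (K := K) (algebraMap ℚ K) (δ := ⟨g, hgK⟩) (disc_ne fun q hq => (hTp q hq).1) ?_ hΔ.ne h1
  apply Subtype.ext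
  show g ^ 2 = ((disc T : K) : M)
  rw [hg]
  simp

end Pool.Agent.R901.EC
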